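import Pool.Agent.helper81.UH.Spec

/-!
# Project uh (MP_a2a22c_al), row UPC (helper81): polynomial curves in the group
-/

set_option autoImplicit false

namespace Pool.Agent.UH

open Matrix Pool.Agent.H48SL Pool.Agent.UG

open Polynomial (aeval C)

/-- the filtration by the powers of `𝔞` -/
def UPC_fil {n : ℕ} (𝔞 : Submodule ℚ (MQ n)) (i : ℕ) : Submodule ℚ (MQ n) :=
  Submodule.span ℚ {M | ∃ l : List (MQ n), (∀ X ∈ l, X ∈ 𝔞) ∧ i ≤ l.length ∧ l.prod = M}

theorem UPC_F {n : ℕ} (𝔞 : Submodule ℚ (MQ n)) : LIN_F (UPC_fil 𝔞) where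
  mul := by
    intro i j X hX Y hY
    have h1 : X * Y ∈ UPC_fil 𝔞 i * UPC_fil 𝔞 j := Submodule.mul_mem_mul hX hY
    unfold UPC_fil at h1 ⊢
    rw [Submodule.span_mul_span] at h1
    refine Submodule.span_mono ?_ h1
    rintro M ⟨a, ⟨l, hl1, hl2, rfl⟩, b, ⟨m, hm1, hm2, rfl⟩, rfl⟩
    refine ⟨l ++ m, ?_, ?_, ?_⟩
    · intro Z hZ
      rcases List.mem_append.1 hZ with h | h
      · exact hl1 Z h
      · exact hm1 Z h
    · rw [List.length_append]
      omega
    · rw [List.prod_append]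
  anti := by
    intro i
    refine Submodule.span_mono ?_
    rintro M ⟨l, hl1, hl2, rfl⟩
    exact ⟨l, hl1, by omega, rfl⟩

theorem UPC_bot {n N : ℕ} {𝔞 : Submodule ℚ (MQ n)} (h : NN N 𝔞) : UPC_fil 𝔞 N = ⊥ := by
  unfold UPC_fil
  rw [Submodule.span_eq_bot]
  rintro M ⟨l, hl1, hl2, rfl⟩
  exact h l hl1 hl2

theorem UPC_one {n : ℕ} {𝔞 : Submodule ℚ (MQ n)} {X : MQ n} (h : X ∈ 𝔞) : X ∈ UPC_fil 𝔞 1 := by
  refine Submodule.subset_span ⟨[X], ?_, le_rfl, ?_⟩
  · intro Y hY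
    rw [List.mem_singleton] at hY
    rw [hY]
    exact h
  · rw [List.prod_singleton]

theorem UPC_coef {n : ℕ} (W : Submodule ℚ (MQ n)) (Z : ℚ → MQ n) (hZ : PC Z)
    (hW : ∀ t, Z t ∈ W) (h0 : Z 0 = 0) :
    ∃ (d : ℕ) (c : ℕ → MQ n), (∀ j, c j ∈ W) ∧
      ∀ t, Z t = ∑ j ∈ Finset.range d, (t ^ (j + 1)) • c j := by
  choose p hp using hZ
  obtain ⟨d, hd⟩ : ∃ d : ℕ, ∀ a b, (p a b).natDegree < d + 1 := by
    refine ⟨∑ a, ∑ b, (p a b).natDegree, fun a b => ?_⟩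
    have h1 : (p a b).natDegree ≤ ∑ b, (p a b).natDegree :=
      Finset.single_le_sum (f := fun b => (p a b).natDegree) (fun _ _ => Nat.zero_le _)
        (Finset.mem_univ b)
    have h2 : ∑ b, (p a b).natDegree ≤ ∑ a, ∑ b, (p a b).natDegree :=
      Finset.single_le_sum (f := fun a => ∑ b, (p a b).natDegree) (fun _ _ => Nat.zero_le _)
        (Finset.mem_univ a)
    omega
  set c : ℕ → MQ n := fun j => Matrix.of fun a b => (p a b).coeff j with hc
  have hsum : ∀ t, Z t = ∑ j ∈ Finset.range (d + 1), (t ^ j) • c j := by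
    intro t
    ext a b
    rw [hp, Polynomial.eval_eq_sum_range' (hd a b), Matrix.sum_apply]
    refine Finset.sum_congr rfl fun j _ => ?_
    rw [Matrix.smul_apply, hc]
    simp only [Matrix.of_apply, smul_eq_mul]
    ring
  have hcW : ∀ j, c j ∈ W := by
    intro j
    by_contra hne
    obtain ⟨ℓ, hℓ1, hℓ2⟩ := Submodule.exists_le_ker_of_notMem hne
    set P : Polynomial ℚ := ∑ j ∈ Finset.range (d + 1), C (ℓ (c j)) * Polynomial.X ^ j with hP
    have hP0 : P = 0 := by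
      refine Polynomial.funext fun t => ?_
      have h1 : ℓ (Z t) = 0 := hℓ2 (hW t)
      rw [hsum t, map_sum] at h1
      rw [hP, Polynomial.eval_finsetSum, Polynomial.eval_zero, ← h1]
      refine Finset.sum_congr rfl fun j _ => ?_
      rw [Polynomial.eval_mul, Polynomial.eval_C, Polynomial.eval_pow, Polynomial.eval_X, map_smul,
        smul_eq_mul, mul_comm]
    by_cases hj : j < d + 1
    · have h2 : P.coeff j = ℓ (c j) := by
        rw [hP, Polynomial.finsetSum_coeff]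
        rw [Finset.sum_eq_single j]
        · rw [Polynomial.coeff_C_mul, Polynomial.coeff_X_pow, if_pos rfl, mul_one]
        · intro b _ hb
          rw [Polynomial.coeff_C_mul, Polynomial.coeff_X_pow, if_neg (Ne.symm hb), mul_zero]
        · intro h3
          exact absurd (Finset.mem_range.2 hj) h3
      rw [hP0, Polynomial.coeff_zero] at h2
      exact hℓ1 h2.symm
    · apply hℓ1
      have h3 : c j = 0 := by
        ext a b
        rw [hc]
        simp only [Matrix.of_apply, Matrix.zero_apply]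
        exact Polynomial.coeff_eq_zero_of_natDegree_lt (lt_of_lt_of_le (hd a b) (by omega))
      rw [h3, map_zero]
  refine ⟨d, fun j => c (j + 1), fun j => hcW (j + 1), fun t => ?_⟩
  have hc0 : c 0 = 0 := by
    have h1 := hsum 0
    rw [h0, Finset.sum_range_succ'] at h1
    have h2 : ∑ k ∈ Finset.range d, ((0 : ℚ) ^ (k + 1)) • c (k + 1) = 0 := by
      refine Finset.sum_eq_zero fun k _ => ?_
      rw [zero_pow (Nat.succ_ne_zero k), zero_smul]
    rw [h2, zero_add, pow_zero, one_smul] at h1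
    exact h1.symm
  rw [hsum t, Finset.sum_range_succ', hc0, smul_zero, add_zero]

theorem UPC_zpow {n : ℕ} (b : SLZ n) (X : MQ n) (hX : IsNilpotent X)
    (hb : qg b = IsNilpotent.exp X) (m : ℤ) : qg (b ^ m) = IsNilpotent.exp ((m : ℚ) • X) := by
  have hp : ∀ j : ℕ, qg (b ^ j) = IsNilpotent.exp ((j : ℚ) • X) := by
    intro j
    rw [qg_pow, hb, (EXJ n X hX).1 j]
  have hinv : ∀ (g : SLZ n) (Y : MQ n), IsNilpotent Y → qg g = IsNilpotent.exp Y →
      qg g⁻¹ = IsNilpotent.exp (-Y) := by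
    intro g Y hY hg
    have h1 : IsNilpotent.exp (-Y) * qg g = 1 := by
      rw [hg]
      exact IsNilpotent.exp_neg_mul_exp_self hY
    calc qg g⁻¹ = IsNilpotent.exp (-Y) * qg g * qg g⁻¹ := by rw [h1, one_mul]
      _ = IsNilpotent.exp (-Y) := by rw [mul_assoc, qg_mul_inv, mul_one]
  obtain ⟨j, hj | hj⟩ := Int.eq_nat_or_neg m
  · rw [hj, zpow_natCast, hp]
    push_cast
    rfl
  · rw [hj, _root_.zpow_neg, zpow_natCast, hinv _ _ (hX.smul _) (hp j), ← neg_smul]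
    push_cast
    rfl

theorem UPC_PC_EX {n : ℕ} (N : ℕ) (f : ℚ → MQ n) (hf : PC f) : PC (fun t => EX N (f t)) := by
  unfold EX
  exact PC.sum _ (fun i t => ((i.factorial : ℚ)⁻¹) • f t ^ i) fun i _ => LIN_PC_c (hf.pow i) _

/-- the product modulo the next step -/
theorem UPC_mod {n N : ℕ} {𝔞 : Submodule ℚ (MQ n)} (hEXF : EXF_stmt) (hN : NN N 𝔞) (i : ℕ)
    (hi : 1 ≤ i) (Q : Polynomial ℚ) (X Y : MQ n) (hX : X ∈ 𝔞) (hY : Y ∈ 𝔞)
    (hXi : X ∈ UPC_fil 𝔞 i) (hYi : Y ∈ UPC_fil 𝔞 i) :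
    aeval (EX N X * EX N Y - 1) (Polynomial.X + Polynomial.X ^ 2 * Q) - (X + Y) ∈
      UPC_fil 𝔞 (i + 1) := by
  have hF := UPC_F 𝔞
  set fil := UPC_fil 𝔞 with hfil
  have hX0 : X ^ (N + 2) = 0 := by
    rw [pow_add, (hEXF n N 𝔞 hN X hX).1, zero_mul]
  have hY0 : Y ^ (N + 2) = 0 := by
    rw [pow_add, (hEXF n N 𝔞 hN Y hY).1, zero_mul]
  have hii : fil i ≤ fil 1 := hF.le hi
  have two : ∀ {a b : MQ n}, a ∈ fil i → b ∈ fil i → a * b ∈ fil (i + 1) := fun ha hb =>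
    hF.le (by omega) (hF.mul i i _ ha _ hb)
  have hU : ∀ (W : MQ n), W ∈ fil i → LIN_U N W 1 ∈ fil (i + 1) := by
    intro W hW
    unfold LIN_U
    refine hF.mulr ?_ ((fil 1).smul_mem _ (hii hW)) _
    rw [pow_two]
    exact two hW hW
  have hUi : ∀ (W : MQ n), W ∈ fil i → LIN_U N W 1 ∈ fil i := fun W hW => hF.anti i (hU W hW)
  have hR : LIN_R N X Y 1 ∈ fil (i + 1) := by
    unfold LIN_R
    refine (fil (i + 1)).add_mem ((fil (i + 1)).add_mem ((fil (i + 1)).add_mem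
      ((fil (i + 1)).add_mem (two hXi hYi) (hU X hXi)) (hU Y hYi)) ?_) ?_
    · exact (fil (i + 1)).smul_mem _ ((fil (i + 1)).add_mem (two hXi (hUi Y hYi))
        (two (hUi X hXi) hYi))
    · exact (fil (i + 1)).smul_mem _ (two (hUi X hXi) (hUi Y hYi))
  have hW : EX N X * EX N Y - 1 = X + Y + LIN_R N X Y 1 := by
    have h1 := LIN_prod hX0 hY0 1
    rw [one_smul, one_smul, one_smul] at h1
    rw [(hEXF n N 𝔞 hN X hX).2.1, (hEXF n N 𝔞 hN Y hY).2.1, h1]
    unfold LIN_A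
    rw [one_smul]
  have hWi : X + Y + LIN_R N X Y 1 ∈ fil i :=
    (fil i).add_mem ((fil i).add_mem hXi hYi) (hF.anti i hR)
  rw [hW, map_add, map_mul, map_pow, Polynomial.aeval_X]
  have e : X + Y + LIN_R N X Y 1 + (X + Y + LIN_R N X Y 1) ^ 2 * aeval (X + Y + LIN_R N X Y 1) Q -
      (X + Y) = LIN_R N X Y 1 + (X + Y + LIN_R N X Y 1) ^ 2 * aeval (X + Y + LIN_R N X Y 1) Q := by
    abel
  rw [e]
  refine (fil (i + 1)).add_mem hR (hF.mulr ?_ (hii hWi) _)
  rw [pow_two]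
  exact two hWi hWi

theorem UPC (hGRP : GRP_stmt) (hEXF : EXF_stmt) : UPC_stmt := by
  intro n N A 𝔞 hLA Z₀ hZ₀ hZ₀a hZ₀0
  obtain ⟨P, ⟨Q, hQ⟩, hP⟩ := hGRP n N
  have hPQ : P = Polynomial.X + Polynomial.X ^ 2 * Q := by rw [← hQ]; ring
  subst hPQ
  have hN := hLA.nn
  have hF := UPC_F 𝔞
  have key : ∀ k i : ℕ, 1 ≤ i → N ≤ i + k → ∀ Z : ℚ → MQ n, PC Z → (∀ t, Z t ∈ 𝔞) →
      (∀ t, Z t ∈ UPC_fil 𝔞 i) → Z 0 = 0 →
      ∃ D : ℕ, 1 ≤ D ∧ ∀ t : ℤ, ∃ a ∈ A, qg a = EX N (Z ((D : ℚ) * t)) := by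
    intro k
    induction k with
    | zero =>
      intro i hi hik Z hZ hZa hZi hZ0
      have h3 : UPC_fil 𝔞 i = ⊥ := by
        rw [eq_bot_iff, ← UPC_bot hN]
        exact hF.le (by omega)
      refine ⟨1, le_rfl, fun t => ⟨1, A.one_mem, ?_⟩⟩
      have h4 := hZi (((1 : ℕ) : ℚ) * t)
      rw [h3, Submodule.mem_bot] at h4
      rw [h4, qg_one, (hEXF n N 𝔞 hN 0 𝔞.zero_mem).2.2.2.2]
    | succ k ih =>
      intro i hi hik
      have inner : ∀ (d : ℕ) (c : ℕ → MQ n), (∀ j, c j ∈ 𝔞) → (∀ j, c j ∈ UPC_fil 𝔞 i) →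
          ∀ Z : ℚ → MQ n, PC Z → (∀ t, Z t ∈ 𝔞) → (∀ t, Z t ∈ UPC_fil 𝔞 i) → Z 0 = 0 →
          (∀ t, Z t - ∑ j ∈ Finset.range d, (t ^ (j + 1)) • c j ∈ UPC_fil 𝔞 (i + 1)) →
          ∃ D : ℕ, 1 ≤ D ∧ ∀ t : ℤ, ∃ a ∈ A, qg a = EX N (Z ((D : ℚ) * t)) := by
        intro d
        induction d with
        | zero =>
          intro c _ _ Z hZ hZa hZi hZ0 hZd
          refine ih (i + 1) (by omega) (by omega) Z hZ hZa (fun t => ?_) hZ0
          have h1 := hZd t
          rwa [Finset.range_zero, Finset.sum_empty, sub_zero] at h1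
        | succ d ihd =>
          intro c hca hci Z hZ hZa hZi hZ0 hZd
          set Y : ℚ → MQ n := fun t => aeval (EX N (-((t ^ (d + 1)) • c d)) * EX N (Z t) - 1)
            (Polynomial.X + Polynomial.X ^ 2 * Q) with hY
          have hcd : ∀ t : ℚ, -((t ^ (d + 1)) • c d) ∈ 𝔞 := fun t =>
            𝔞.neg_mem (𝔞.smul_mem _ (hca d))
          have hcdi : ∀ t : ℚ, -((t ^ (d + 1)) • c d) ∈ UPC_fil 𝔞 i := fun t =>
            (UPC_fil 𝔞 i).neg_mem ((UPC_fil 𝔞 i).smul_mem _ (hci d))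
          have hmod : ∀ t, Y t - (-((t ^ (d + 1)) • c d) + Z t) ∈ UPC_fil 𝔞 (i + 1) := fun t =>
            UPC_mod hEXF hN i hi Q _ _ (hcd t) (hZa t) (hcdi t) (hZi t)
          have hYi : ∀ t, Y t ∈ UPC_fil 𝔞 i := by
            intro t
            have h1 := (UPC_fil 𝔞 i).add_mem (hF.anti i (hmod t))
              ((UPC_fil 𝔞 i).add_mem (hcdi t) (hZi t))
            rwa [sub_add_cancel] at h1
          have hPCc : PC (fun t : ℚ => -((t ^ (d + 1)) • c d)) := by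
            have h1 := (PC.const (c d)).smul (-(Polynomial.X ^ (d + 1)))
            simpa only [Polynomial.eval_neg, Polynomial.eval_pow, Polynomial.eval_X, neg_smul]
              using h1
          have hYPC : PC Y := by
            refine LIN_PC_aeval ?_ _
            have h1 := ((UPC_PC_EX N _ hPCc).mul (UPC_PC_EX N _ hZ)).add (PC.const (-1))
            simpa only [sub_eq_add_neg] using h1
          have hEX0 : EX N (0 : MQ n) = 1 := (hEXF n N 𝔞 hN 0 𝔞.zero_mem).2.2.2.2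
          have hY0 : Y 0 = 0 := by
            rw [hY]
            simp only [hZ0, zero_pow (Nat.succ_ne_zero d), zero_smul, neg_zero, hEX0, mul_one,
              sub_self, map_add, Polynomial.aeval_X, map_mul, map_pow]
            rw [zero_add, pow_two, zero_mul, zero_mul]
          obtain ⟨D, hD, hDt⟩ := ihd c hca hci Y hYPC (fun t => (hP A 𝔞 hLA _ (hcd t) _ (hZa t)).1)
            hYi hY0 (fun t => by
              have h1 := (UPC_fil 𝔞 (i + 1)).add_mem (hmod t) (hZd t)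
              rw [Finset.sum_range_succ] at h1
              have e : Y t - (-((t ^ (d + 1)) • c d) + Z t) +
                  (Z t - (∑ j ∈ Finset.range d, (t ^ (j + 1)) • c j + (t ^ (d + 1)) • c d)) =
                  Y t - ∑ j ∈ Finset.range d, (t ^ (j + 1)) • c j := by
                abel
              rwa [e] at h1)
          obtain ⟨m, hm, b, hb, hbq⟩ := hLA.lat (c d) (hca d)
          refine ⟨D * m, Nat.mul_pos hD hm, fun t => ?_⟩
          obtain ⟨a, ha, haq⟩ := hDt (m * t)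
          refine ⟨b ^ ((D : ℤ) ^ (d + 1) * (m : ℤ) ^ d * t ^ (d + 1)) * a,
            A.mul_mem (A.zpow_mem hb _) ha, ?_⟩
          have hT : ((D * m : ℕ) : ℚ) * t = (D : ℚ) * ((m * t : ℤ) : ℚ) := by
            push_cast
            ring
          have hnil : IsNilpotent (((m : ℚ)) • c d) :=
            ⟨N, (hEXF n N 𝔞 hN _ (𝔞.smul_mem _ (hca d))).1⟩
          rw [qg_mul, haq, UPC_zpow b _ hnil hbq, hT]
          set T : ℚ := (D : ℚ) * ((m * t : ℤ) : ℚ) with hTT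
          have h5 := (hP A 𝔞 hLA _ (hcd T) _ (hZa T)).2
          have h6 : EX N (Z T) = EX N ((T ^ (d + 1)) • c d) * EX N (Y T) := by
            have h7 : EX N (Y T) = EX N (-((T ^ (d + 1)) • c d)) * EX N (Z T) := h5
            rw [h7, ← mul_assoc, (hEXF n N 𝔞 hN _ (𝔞.smul_mem _ (hca d))).2.2.1, one_mul]
          rw [h6, (hEXF n N 𝔞 hN _ (𝔞.smul_mem _ (hca d))).2.1, smul_smul]
          congr 3
          rw [hTT]
          push_cast
          ring
      intro Z hZ hZa hZi hZ0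
      obtain ⟨d, c, hc, hsum⟩ := UPC_coef (𝔞 ⊓ UPC_fil 𝔞 i) Z hZ (fun t => ⟨hZa t, hZi t⟩) hZ0
      refine inner d c (fun j => (hc j).1) (fun j => (hc j).2) Z hZ hZa hZi hZ0 (fun t => ?_)
      rw [← hsum t, sub_self]
      exact (UPC_fil 𝔞 (i + 1)).zero_mem
  exact key N 1 le_rfl (by omega) Z₀ hZ₀ hZ₀a (fun t => UPC_one (hZ₀a t)) hZ₀0

end Pool.Agent.UH
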