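import Pool.Agent.helper81.UH.Core
import Pool.Agent.helper81.UH.UPC
import Pool.Agent.helper76.UH.EXF
import Pool.Agent.helper76.UH.DEN
import Pool.Agent.helper76.UH.ELA
import Pool.Agent.helper18.UH.PCU
import Pool.Agent.helper30.UH.GRP
import Pool.Agent.helper30.UH.STC
import Pool.Agent.helper31.UH.FLG
import Pool.Agent.helper41.UH.LIN
import Pool.Agent.helper90.UH.ZZK
import Pool.Agent.helper61.UH.COI
import Pool.Agent.helper27.UH.RAT
import Pool.Agent.helper27.UH.FIL
import Pool.Agent.helper87.UH.SPC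
import Pool.Agent.helper22.UH.ZDH
import Pool.Agent.helper98.UH.FIN

/-!
# Project uh (MP_a2a22c_al): assembly
-/

set_option autoImplicit false

namespace Pool.Agent.UH

open Matrix Pool.Agent.H48SL Pool.Agent.UG

theorem tPCU : PCU_stmt := PCU EXF

theorem tUPC : UPC_stmt := UPC GRP EXF

theorem tFLG : FLG_stmt := FLG EXF

theorem tLIN : LIN_stmt := LIN tPCU tUPC EXF tFLG

theorem tCOI : COI_stmt := COI tLIN tPCU tFLG ZZK

theorem tDEN : DEN_stmt := DEN tCOI RAT

theorem tSPC : SPC_stmt := SPC tFLG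

theorem tZDH : ZDH_stmt := ZDH tDEN tSPC ZZK tFLG

theorem tFIN : FIN_stmt := FIN tZDH FIL STC ELA

end Pool.Agent.UH
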