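import Pool.Agent.helper54.UG.Asm3

/-!
# Project uh (MP_a2a22c_al): the sharp threshold. A Zariski dense subgroup `H` of `SL(n, ℤ)`, `n ≥ 3`, with a unipotent subgroup of Hirsch length `≥ n - 1` has finite index

Paper: /team-store/H8_MP_a2a22c_al_helper81.md. RULES. Row `uh:XXX` proves `theorem XXX (h1 : YYY_stmt) ... : XXX_stmt` (exact line in its lock note) in
`Pool/Agent/<seat>/UH/XXX.lean`:

  import Pool.Agent.helper81.UH.Spec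
  set_option autoImplicit false
  namespace Pool.Agent.UH
  open Matrix Pool.Agent.H48SL Pool.Agent.UG

other rows only as hypotheses, the LANDED theorems of project ug (`Pool.Agent.UG.EXJ`, `LG`, `EXI EXJ`, `tG0`, `tSTQ`-like, ..., all proved; see `Pool/Agent/helper54/UG/Asm*.lean`) may be used directly.
Auxiliary lemmas with the prefix `XXX_`. No `convert` / `congr!`, no straight double quotes, no sorry. Never change this file; wrong or unclear statement: one line to helper81.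

IDEA. `A` unipotent, `𝔞` its space of logarithms, `dim 𝔞 = n`, matrices of size `n + 1`. If some vector `u` is not killed by any `0 ≠ X ∈ 𝔞`, then `X ↦ X u` is a bijection of `𝔞` onto `ker f`, `f` an invariant row, and the orbit
of `u` contains `u + D (ker f ∩ ℤ^(n+1))`. Two conjugates `h A h⁻¹`, `g A g⁻¹` both contain elements which map `e0` to `e0 + t z`, `z ∈ ker (f h⁻¹) ∩ ker (f g⁻¹)`: the quotient is in the stabiliser of `e0` in `H`. These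
elements are polynomial in `t` and rational in `h`, `g`; by density all of them (`h, g ∈ SL`) are in the Zariski closure of the stabiliser; for `h = k g`, `k` a transvection with centre `e0`, they are transvections of `V / e0`.
So `Hb H` is Zariski dense, and contains a unipotent group of Hirsch length `n` = the size: `Hb H` has finite index (landed), and then `H` has finite index (FIL).
-/

set_option autoImplicit false

namespace Pool.Agent.UH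

open Matrix Pool.Agent.H48SL Pool.Agent.UG

/-- the exponential truncated at `N` -/
noncomputable def EX {n : ℕ} (N : ℕ) (X : MQ n) : MQ n :=
  ∑ i ∈ Finset.range N, ((i.factorial : ℚ)⁻¹) • X ^ i

/-- all products of `N` or more elements of `𝔞` vanish -/
def NN {n : ℕ} (N : ℕ) (𝔞 : Submodule ℚ (MQ n)) : Prop :=
  ∀ l : List (MQ n), (∀ X ∈ l, X ∈ 𝔞) → N ≤ l.length → l.prod = 0

/-- `𝔞` is the space of the logarithms of the group `A` -/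
structure LA {n : ℕ} (A : Subgroup (SLZ n)) (𝔞 : Submodule ℚ (MQ n)) (N : ℕ) : Prop where
  nn : NN N 𝔞
  lat : ∀ Z ∈ 𝔞, ∃ k : ℕ, 1 ≤ k ∧ ∃ a ∈ A, qg a = IsNilpotent.exp ((k : ℚ) • Z)
  log : ∀ a ∈ A, ∃ Z ∈ 𝔞, qg a = IsNilpotent.exp Z

/-- the matrix with the columns `y, X 0 y, X 1 y, ...` -/
def NM {n : ℕ} (X : Fin n → MQ (n + 1)) (y : Fin (n + 1) → ℚ) : MQ (n + 1) :=
  Matrix.of fun i j => Fin.cases (y i) (fun j' => (X j' *ᵥ y) i) j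

/-- its determinant -/
def dl {n : ℕ} (X : Fin n → MQ (n + 1)) (y : Fin (n + 1) → ℚ) : ℚ := (NM X y).det

/-- the inverse of `Z ↦ Z y` (on `ker f`) -/
noncomputable def AA {n : ℕ} (X : Fin n → MQ (n + 1)) (y v : Fin (n + 1) → ℚ) : MQ (n + 1) :=
  ∑ j : Fin n, (((NM X y).adjugate *ᵥ v) j.succ / dl X y) • X j

/-- the recursion `u_(i+1) = u_i exp (A(y + w - u_i y))`, together with the inverse -/
noncomputable def UPS {n : ℕ} (N : ℕ) (X : Fin n → MQ (n + 1)) (y w : Fin (n + 1) → ℚ) :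
    ℕ → MQ (n + 1) × MQ (n + 1)
  | 0 => (1, 1)
  | i + 1 => ((UPS N X y w i).1 * EX N (AA X y (y + w - (UPS N X y w i).1 *ᵥ y)),
      EX N (-(AA X y (y + w - (UPS N X y w i).1 *ᵥ y))) * (UPS N X y w i).2)

/-- the element which maps `y` to `y + w` -/
noncomputable def U1 {n : ℕ} (N : ℕ) (X : Fin n → MQ (n + 1)) (y w : Fin (n + 1) → ℚ) : MQ (n + 1) :=
  (UPS N X y w N).1

/-- its inverse -/
noncomputable def U2 {n : ℕ} (N : ℕ) (X : Fin n → MQ (n + 1)) (y w : Fin (n + 1) → ℚ) : MQ (n + 1) :=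
  (UPS N X y w N).2

/-- the data -/
structure Dat {n : ℕ} (A : Subgroup (SLZ (n + 1))) (𝔞 : Submodule ℚ (MQ (n + 1))) (N : ℕ)
    (X : Fin n → MQ (n + 1)) (f : Fin (n + 1) → ℚ) : Prop where
  la : LA A 𝔞 N
  mem : ∀ j, X j ∈ 𝔞
  row : ∀ Z ∈ 𝔞, f ᵥ* Z = 0
  e0 : ∀ Z ∈ 𝔞, Z *ᵥ e0 n = 0
  ne : ∃ u, dl X u ≠ 0

/-- the row `f h⁻¹` -/
def fh {n : ℕ} (f : Fin (n + 1) → ℚ) (h : SLZ (n + 1)) : Fin (n + 1) → ℚ := f ᵥ* qg h⁻¹

/-- the vector `h⁻¹ e0` -/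
def yv {n : ℕ} (h : SLZ (n + 1)) : Fin (n + 1) → ℚ := qg h⁻¹ *ᵥ e0 n

/-- a vector in the kernels of `f h⁻¹` and `f g⁻¹` -/
def zz {n : ℕ} (f : Fin (n + 1) → ℚ) (h g : SLZ (n + 1)) (a b c : Fin (n + 1) → ℚ) : Fin (n + 1) → ℚ :=
  (fh f h ⬝ᵥ b * (fh f g ⬝ᵥ c) - fh f h ⬝ᵥ c * (fh f g ⬝ᵥ b)) • a +
    (fh f h ⬝ᵥ c * (fh f g ⬝ᵥ a) - fh f h ⬝ᵥ a * (fh f g ⬝ᵥ c)) • b +
    (fh f h ⬝ᵥ a * (fh f g ⬝ᵥ b) - fh f h ⬝ᵥ b * (fh f g ⬝ᵥ a)) • c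

/-- the coincidence element -/
noncomputable def SS {n : ℕ} (N : ℕ) (X : Fin n → MQ (n + 1)) (f : Fin (n + 1) → ℚ)
    (h g : SLZ (n + 1)) (a b c : Fin (n + 1) → ℚ) (t : ℚ) : MQ (n + 1) :=
  (qg h * U2 N X (yv h) (t • (qg h⁻¹ *ᵥ zz f h g a b c)) * qg h⁻¹) *
    (qg g * U1 N X (yv g) (t • (qg g⁻¹ *ᵥ zz f h g a b c)) * qg g⁻¹)

/-- the polynomial `P` at the matrix `M` -/
noncomputable def ev {n : ℕ} (P : MvPolynomial (Fin n × Fin n) ℚ) (M : MQ n) : ℚ :=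
  MvPolynomial.eval (fun x : Fin n × Fin n => M x.1 x.2) P

/-! ### Elementary facts -/

/-- **EXF** (short). `X ^ N = 0` (the list `replicate N X`), `IsNilpotent.exp_eq_sum`; `EX N (-X) = IsNilpotent.exp (-X)`, `IsNilpotent.exp_mul_exp_neg_self`. The entry: `EX N 0 = 1` if `N ≥ 1` (`0 ^ 0 = 1`); `N = 0` with `NN 0 𝔞` forces
the identity matrix to be `0` (empty list), so everything is equal. -/
def EXF_stmt : Prop := ∀ (n N : ℕ) (𝔞 : Submodule ℚ (MQ n)), NN N 𝔞 → ∀ X ∈ 𝔞,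
  X ^ N = 0 ∧ EX N X = IsNilpotent.exp X ∧ EX N X * EX N (-X) = 1 ∧ EX N (-X) * EX N X = 1 ∧
  EX N (0 : MQ n) = 1

/-- **PCU** (short/medium). Polynomial dependence on `t`. Induction on `i` for both components together: the entries of `(UPS ..).1 *ᵥ y`, of `y + t w - ..`, of `adjugate *ᵥ ..` are polynomials in `t` (fixed `y`; `dl X y` is a constant, possibly
`0`), `PC.smul`, `PC.sum`, `PC.pow`, `PC.mul`. The curve `t ↦ AA X y (y + t w - (UPS ..).1 y)` is `PC` and vanishes at `t = 0` because `(UPS N X y 0 i) = (1, 1)` (`AA X y 0 = 0`, `EX N 0 = 1`). -/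
def PCU_stmt : Prop := ∀ (n N : ℕ) (𝔞 : Submodule ℚ (MQ (n + 1))) (X : Fin n → MQ (n + 1))
  (y w : Fin (n + 1) → ℚ), NN N 𝔞 → (∀ j, X j ∈ 𝔞) → ∀ i : ℕ,
  PC (fun t : ℚ => (UPS N X y (t • w) i).1) ∧ PC (fun t : ℚ => (UPS N X y (t • w) i).2) ∧
  PC (fun t : ℚ => AA X y (y + t • w - (UPS N X y (t • w) i).1 *ᵥ y)) ∧
  AA X y (y + (0 : ℚ) • w - (UPS N X y ((0 : ℚ) • w) i).1 *ᵥ y) = 0

/-- **GRP** (medium). The logarithms are closed under the group law. From the landed LG (`Pool.Agent.UG.LG n` gives a polynomial `P` over `ℚ` with `X² ∣ P - X`, `exp (P(M)) = 1 + M` for nilpotent `M`, `P(exp Z - 1) = Z` for nilpotent `Z`) and EXF. For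
`X, Y ∈ 𝔞` all products of `N` factors `EX X EX Y - 1` vanish (such a difference is a linear combination of products of `≥ 1` elements of `𝔞`), so they are nilpotent, and `L(s, t) = P(EX (sX) EX (tY) - 1)` is a polynomial curve in `s` and in `t`.
`exp (kX), exp (lY) ∈ A` (`lat`), so for integers `i, j` `exp (ikX) exp (jlY) ∈ A`, `= exp Z`, `Z ∈ 𝔞` (`log`), `L(ik, jl) = Z ∈ 𝔞`. A polynomial curve which is in `𝔞` for infinitely many `t` is in `𝔞` for all `t` (compose with linear functionals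
vanishing on `𝔞`; or as in `PC.mem_zero`): first `t` (for `s = ik`), then `s`. `EX (L(1, 1)) = 1 + (EX X EX Y - 1)`. -/
def GRP_stmt : Prop := ∀ (n N : ℕ), ∃ P : Polynomial ℚ, Polynomial.X ^ 2 ∣ P - Polynomial.X ∧
  ∀ (A : Subgroup (SLZ n)) (𝔞 : Submodule ℚ (MQ n)), LA A 𝔞 N → ∀ X ∈ 𝔞, ∀ Y ∈ 𝔞,
    Polynomial.aeval (EX N X * EX N Y - 1) P ∈ 𝔞 ∧
    EX N (Polynomial.aeval (EX N X * EX N Y - 1) P) = EX N X * EX N Y

/-- **UPC** (medium). Polynomial curves through `0` are in `A` for all `t` in `D ℤ`. From GRP, EXF. Let `fil i` be the span of all products of `i` or more elements of `𝔞` (`fil N = ⊥`; `fil i * fil j ≤ fil (i + j)`). Claim for `i ≥ 1` by downward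
induction (`i = N` clear, `Z = 0`, `EX N 0 = 1`): the statement for `Z t ∈ 𝔞 ⊓ fil i`. Write `Z t = ∑_{j=1}^d t^j Z_j` with `Z_j ∈ 𝔞 ⊓ fil i` (the coefficients of a polynomial curve in a subspace are in the subspace; the constant one is `Z 0 = 0`). Let
`Π_0 = Z t`, `Π_j = P(EX (-t^j Z_j) EX (Π_(j-1)) - 1)` (GRP): polynomial curves in `𝔞`, zero at `t = 0`, `EX (Π_(j-1)) = EX (t^j Z_j) EX (Π_j)`, and modulo `fil (i + 1)`: `Π_j ≡ Π_(j-1) - t^j Z_j` (`EX X EX Y - 1 - X - Y ∈ fil (2i)` for `X, Y ∈ fil i`, and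
`P(M) - M ∈ fil (2i)` for `M ∈ fil i`). So `Π_d t ∈ 𝔞 ⊓ fil (i + 1)`: induction. `EX (t^j Z_j) ∈ A` for `t ∈ k_j ℤ`, `exp (k_j Z_j) ∈ A` (`t^j = k_j m`, `EXJ` (a) and inverses). `D` = the product of all these numbers. -/
def UPC_stmt : Prop := ∀ (n N : ℕ) (A : Subgroup (SLZ n)) (𝔞 : Submodule ℚ (MQ n)), LA A 𝔞 N →
  ∀ Z : ℚ → MQ n, PC Z → (∀ t, Z t ∈ 𝔞) → Z 0 = 0 →
  ∃ D : ℕ, 1 ≤ D ∧ ∀ t : ℤ, ∃ a ∈ A, qg a = EX N (Z ((D : ℚ) * t))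

/-- **FLG** (medium). The recursion. From EXF. `NM X y * c = v` for `c = adjugate *ᵥ v / dl` (`Matrix.mul_adjugate`), that is `c_0 y + ∑ c_(j+1) X_j y = v`; apply `f`: `c_0 (f ⬝ y) = f ⬝ v`. `f ⬝ y ≠ 0`, because otherwise `f ᵥ* NM X y = 0` and `f ≠ 0`
(if `f = 0`... it is excluded by `f ⬝ᵥ y ≠ 0` as hypothesis). So `AA X y v *ᵥ y = v` if `f ⬝ v = 0`, and `AA X y v ∈ 𝔞`. Let `F 1 = {v : f ⬝ v = 0}`, `F (i+1)` = the span of `Z *ᵥ v`, `Z ∈ 𝔞`, `v ∈ F i` (`F (i+1) ≤ F i` for `i ≥ 1`, since `F 2 ≤ F 1`;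
`F (N+1) = 0` by `NN`). `EX N Z *ᵥ v - v ∈ F (i+1)` for `v ∈ F i`, so `(UPS ..).1 *ᵥ v - v ∈ F (i+1)`. Claim: `r_i = y + w - (UPS i).1 y ∈ F (i+1)`: `r_0 = w`; `Z = AA X y r_i`: `Z y = r_i`, `EX N Z y = y + r_i + ρ`, `ρ ∈ F (i+2)`, and
`(UPS i).1 (y + r_i + ρ) = (UPS i).1 y + r_i + (element of F (i+2))`. So `r_N ∈ F (N+1) = 0`. The products: induction with EXF. -/
def FLG_stmt : Prop := ∀ (n N : ℕ) (𝔞 : Submodule ℚ (MQ (n + 1))) (X : Fin n → MQ (n + 1))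
  (f y w : Fin (n + 1) → ℚ), NN N 𝔞 → (∀ j, X j ∈ 𝔞) → (∀ Z ∈ 𝔞, f ᵥ* Z = 0) → dl X y ≠ 0 →
  f ⬝ᵥ y ≠ 0 → f ⬝ᵥ w = 0 →
  U1 N X y w *ᵥ y = y + w ∧ U1 N X y w * U2 N X y w = 1 ∧ U2 N X y w * U1 N X y w = 1

/-- **LIN** (short/medium). From PCU, UPC, EXF, FLG. The factors `EX N (AA ..)` of `(UPS N X y (t w) i).1` are in `A` for all `t ∈ D_i ℤ` (UPC for the curve `t ↦ AA X y (y + t w - ..)`, in `𝔞` as a linear combination of the `X j`); `D = ∏_{i < N} D_i`; induction on `i`. -/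
def LIN_stmt : Prop := ∀ (n N : ℕ) (A : Subgroup (SLZ (n + 1))) (𝔞 : Submodule ℚ (MQ (n + 1)))
  (X : Fin n → MQ (n + 1)) (y w : Fin (n + 1) → ℚ), LA A 𝔞 N → (∀ j, X j ∈ 𝔞) →
  ∃ D : ℕ, 1 ≤ D ∧ ∀ t : ℤ, ∃ a ∈ A, qg a = U1 N X y (((D : ℚ) * t) • w)

/-! ### Coincidences -/

/-- **ZZK** (short). `fh f h ⬝ᵥ zz = 0`, `fh f g ⬝ᵥ zz = 0`: both are determinants with two equal rows (`ring` after `dotProduct_add`, `dotProduct_smul`); `f ⬝ᵥ (qg h⁻¹ *ᵥ v) = fh f h ⬝ᵥ v` (`Matrix.dotProduct_mulVec`). Equivariance: for `fx s`: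
`fh f (s h) ⬝ᵥ (qg s *ᵥ v) = fh f h ⬝ᵥ v`, `yv (s h) = yv h` (`s⁻¹ e0 = e0`), `zz f (s h) (s g) (s a) (s b) (s c) = s zz f h g a b c`, `(s h)⁻¹ s zz = h⁻¹ zz`. -/
def ZZK_stmt : Prop := ∀ (n N : ℕ) (X : Fin n → MQ (n + 1)) (f : Fin (n + 1) → ℚ) (h g : SLZ (n + 1))
  (a b c : Fin (n + 1) → ℚ),
  f ⬝ᵥ (qg h⁻¹ *ᵥ zz f h g a b c) = 0 ∧ f ⬝ᵥ (qg g⁻¹ *ᵥ zz f h g a b c) = 0 ∧
  ∀ (s : SLZ (n + 1)) (t : ℚ), fx s → yv (s * h) = yv h ∧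
    SS N X f (s * h) (s * g) (qg s *ᵥ a) (qg s *ᵥ b) (qg s *ᵥ c) t =
      qg s * SS N X f h g a b c t * qg s⁻¹

/-- **COI** (medium). From LIN, PCU, FLG, ZZK. `f ⬝ yv h ≠ 0`: otherwise `f ᵥ* NM X (yv h) = 0`, `f ≠ 0` (`hf`). For `t ∈ D₁ D₂ ℤ` there are `a₁, a₂ ∈ A` with `qg a₁ = U1 N X (yv h) (t h⁻¹ z)`, `qg a₂ = U1 N X (yv g) (t g⁻¹ z)`, so `qg a₁⁻¹ = U2 ..` (FLG), and
`s = h a₁⁻¹ h⁻¹ g a₂ g⁻¹ ∈ H`, `qg s = SS ..`. `s e0 = e0`: `g a₂ g⁻¹ e0 = g (yv g + t g⁻¹ z) = e0 + t z`, `h a₁⁻¹ h⁻¹ (e0 + t z) = h U2 (yv h + t h⁻¹ z) = h yv h = e0`. So `dn (SS ..) = qg (bl s ..)`, `bl s ∈ Hb H`, and `ev P = 0`. The left side is a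
polynomial in `t` (PCU) with infinitely many zeros. (`ev P (dn (SS ..)) = 0` for all rational `t`.) -/
def COI_stmt : Prop := ∀ (n N : ℕ) (A H : Subgroup (SLZ (n + 1))) (𝔞 : Submodule ℚ (MQ (n + 1)))
  (X : Fin n → MQ (n + 1)) (f : Fin (n + 1) → ℚ), Dat A 𝔞 N X f → f ≠ 0 → A ≤ H →
  ∀ P : MvPolynomial (Fin n × Fin n) ℚ, (∀ s ∈ Hb H, ev P (qg s) = 0) →
  ∀ h ∈ H, ∀ g ∈ H, dl X (yv h) ≠ 0 → dl X (yv g) ≠ 0 → ∀ (a b c : Fin (n + 1) → ℚ) (t : ℚ),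
    ev P (dn (SS N X f h g a b c t)) = 0

/-- **RAT** (medium). Rational dependence on `h` (and on `g`). Call `φ : SLZ (n+1) → ℚ` good for `δ` if `IsPolyQ (fun h => δ h ^ K * φ h)` for some `K` (`δ` itself `IsPolyQ`). Good functions are closed under sums and products, contain the `IsPolyQ` ones,
and `1 / δ` is good (`K = 2`: `δ² δ⁻¹ = δ`, also if `δ = 0`). If the entries of `y(h)`, `w(h)` are `IsPolyQ` then the entries of both components of `UPS N X (y h) (w h) i` are good for `δ h = dl X (y h)` (induction; `NM`, `adjugate`, `det` are polynomials in the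
entries: `IsPolyQ.evalP` or `Matrix.det_apply`, `adjugate_apply`); if `y` is constant with `dl X y ≠ 0` they are `IsPolyQ`. Entries of `yv h`, `fh f h`, `zz` are `IsPolyQ` in `h` for fixed `g` and in `g` for fixed `h` (`IsPolyQ.entry_inv`). -/
def RAT_stmt : Prop := ∀ (n N : ℕ) (X : Fin n → MQ (n + 1)) (f : Fin (n + 1) → ℚ)
  (P : MvPolynomial (Fin n × Fin n) ℚ) (a b c : Fin (n + 1) → ℚ) (t : ℚ),
  (∀ g : SLZ (n + 1), dl X (yv g) ≠ 0 → ∃ K : ℕ,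
    IsPolyQ (fun h : SLZ (n + 1) => dl X (yv h) ^ K * ev P (dn (SS N X f h g a b c t)))) ∧
  (∀ h : SLZ (n + 1), dl X (yv h) ≠ 0 → ∃ K : ℕ,
    IsPolyQ (fun g : SLZ (n + 1) => dl X (yv g) ^ K * ev P (dn (SS N X f h g a b c t)))) ∧
  IsPolyQ (fun h : SLZ (n + 1) => dl X (yv h))

/-- **DEN** (short/medium). From COI, RAT. Fix `g ∈ H` with `dl X (yv g) ≠ 0`: `dl (yv h) ^ (K+1) * ev ..` is `IsPolyQ` and vanishes for `h ∈ H` (COI), so for all `h` (`IsPolyQ.dense`). Then fix any `h` with `dl X (yv h) ≠ 0`: `dl (yv g) ^ (K+1) * ev ..` vanishes for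
`g ∈ H`, so for all `g`. -/
def DEN_stmt : Prop := ∀ (n N : ℕ) (A H : Subgroup (SLZ (n + 1))) (𝔞 : Submodule ℚ (MQ (n + 1)))
  (X : Fin n → MQ (n + 1)) (f : Fin (n + 1) → ℚ), ZDense H → Dat A 𝔞 N X f → f ≠ 0 → A ≤ H →
  ∀ P : MvPolynomial (Fin n × Fin n) ℚ, (∀ s ∈ Hb H, ev P (qg s) = 0) →
  ∀ h g : SLZ (n + 1), dl X (yv h) ≠ 0 → dl X (yv g) ≠ 0 → ∀ (a b c : Fin (n + 1) → ℚ) (t : ℚ),
    ev P (dn (SS N X f h g a b c t)) = 0

/-- **SPC** (medium). The special pair. From FLG, ZZK, `PRM` (landed: the orbit of `e0` is Zariski dense). `g` with `dl X (yv g) ≠ 0` by PRM (`dl X y` is a polynomial in `y`, not `0`). `c₀ = fh f g ⬝ e0 = f ⬝ yv g ≠ 0`. `b, c` linearly independent in the kernel of `fh f g`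
(dimension `n ≥ 2`, `e0` is not in it), `ψ` an integral row with `ψ e0 = 0`, `ψ b = 0`, `ψ c ≠ 0`. For `m ∈ ℤ`, `m ≠ 0` let `k = tv e0 (m ψ)`, `h = k g`, `a = e0`, `t = 1 / m`. `yv h = yv g`, `fh f h = fh f g - c₀ m ψ`, `zz = - c₀² m ψ(c) b =: m z₁`, `ψ z₁ = 0`, `h⁻¹ z₁ = g⁻¹ z₁`; so
`U1 N X (yv h) (t h⁻¹ zz) = U1 N X (yv g) (g⁻¹ z₁)`, `SS = k υ⁻¹ k⁻¹ υ` with `υ = g U1 g⁻¹` independent of `m`, `υ e0 = e0 + z₁`. `υ⁻¹ k⁻¹ υ = 1 - m (υ⁻¹ e0) ⊗ (ψ υ)`, and the rows `≥ 1` of `k` are those of `1`: `dn SS = 1 - m p ⊗ q`, `p = (υ⁻¹ e0)' `, `q = (ψ υ)'` (components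
`≥ 1`). `(ψ υ)_0 = ψ (υ e0) = 0`, so `q ⬝ p = ψ e0 = 0` and `q ≠ 0`; `p ≠ 0`: otherwise `e0 + z₁ ∈ ℚ e0`, `z₁ ∈ ℚ e0 ∩ ker (fh f g) = 0`. Choose `m = - N₁ N₂` with `N₁ p`, `N₂ q` integral (`clear_denom`): `dn SS = qg (tv (N₁ p) (N₂ q))`. -/
def SPC_stmt : Prop := ∀ (n N : ℕ) (A : Subgroup (SLZ (n + 1))) (𝔞 : Submodule ℚ (MQ (n + 1)))
  (X : Fin n → MQ (n + 1)) (f : Fin (n + 1) → ℚ), 2 ≤ n → Dat A 𝔞 N X f → f ≠ 0 →
  ∃ (h g : SLZ (n + 1)) (a b c : Fin (n + 1) → ℚ) (t : ℚ) (σ : SLZ n),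
    dl X (yv h) ≠ 0 ∧ dl X (yv g) ≠ 0 ∧ qg σ = dn (SS N X f h g a b c t) ∧ σ ≠ 1 ∧
    IsNilpotent (qg σ - 1)

/-- **ZDH** (short/medium). From DEN, SPC, ZZK, and the landed `NSG`, `FIZ` (`Pool.Agent.UG`), `exists_up`, `zdense_of_le_Zc`. `M` = the subgroup generated by the `σ` with `qg σ = dn (SS ..)`, `dl ≠ 0` twice. `M ≤ Zc (Hb H)` (DEN; an integer polynomial mapped to `ℚ`). `M` is normal
(ZZK with a lift `s` of an element of `SLZ n`; the block of `s SS s⁻¹`: `dn_mul`, `SS *ᵥ e0 = e0` by FLG as in COI; add FLG as a hypothesis). SPC, NSG: `M` has finite index; FIZ: `M` is Zariski dense. -/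
def ZDH_stmt : Prop := ∀ (n N : ℕ) (A H : Subgroup (SLZ (n + 1))) (𝔞 : Submodule ℚ (MQ (n + 1)))
  (X : Fin n → MQ (n + 1)) (f : Fin (n + 1) → ℚ), 3 ≤ n → ZDense H → Dat A 𝔞 N X f → f ≠ 0 → A ≤ H →
  ZDense (Hb H)

/-! ### The end -/

/-- **FIL** (medium). From the landed `TRV`, `H1` (`Pool.Agent.UG`), `final_coef` or `Core2_P`. `Hb H` has finite index. If `tv e0 τ ∈ H` for some `τ ≠ 0`, `τ 0 = 0`: TRV. Otherwise elements of `G = H ⊓ St n` with block `1` are `1` (as in CLA (i), `Pool/Agent/*/UG/CLA.lean`). There is `k ≥ 1` with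
`xe i j k ∈ Hb H` for all `i ≠ j` (CLA (ii)); lifts `g i j`, `ψ` from H1: `ψ 0 = 1`, `ψ (g i j) = ψ`. Take `i = 0`, `j = 1, 2` (`n ≥ 3`): `g = g 0 1`, `g' = g 0 2`. `g - 1` kills `e0` and its image is in `{v : ψ v = 0, v = c e_1 mod e0} = ℚ w`, `w = e_1 - ψ_1 e0` (index `1 = succ 0`): `g = 1 + w ⊗ η`,
`g' = 1 + w ⊗ η'`, `η, η'` independent (they are `k e_2`, `k e_3` on the blocks), `η w = 0 = η' w`. `final_coef` with `z = g`, `g = g'`: `η (g' w) = η w = 0`, and no power of `g'` is in `⟨g⟩`. (Scale `w`, `η` to integers as in `R1`, or use a power.) -/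
def FIL_stmt : Prop := ∀ n : ℕ, 3 ≤ n → ∀ H : Subgroup (SLZ (n + 1)), ZDense H → (Hb H).FiniteIndex → H.FiniteIndex

/-- **STC** (medium). Structure. From the landed `COM`, `CNJ_vec` (`Pool/Agent/helper78/UG/CNJ.lean`), `EXC`, `EXJ`, `TRP`-type transposition. `𝔞` is not `Star`: `u` with `Z u ≠ 0` for all `0 ≠ Z ∈ 𝔞`. COM for the transposed matrices: `f ≠ 0` with `f Z = 0` for all `Z ∈ 𝔞`. The image `𝔞 u` is in `ker f`
(dimension `n`), of dimension `finrank 𝔞 ≥ n`: so `finrank 𝔞 = n`, `𝔞 u = ker f`, and `u ∉ 𝔞 u` (nilpotent), so for a basis `X` of `𝔞` the columns of `NM X u` are independent. COM: `v ≠ 0` killed by `𝔞`; conjugate such that `v = e0` (`H' = g⁻¹ H g`, `A'`, `𝔞'`, `X'`, `f' = f g`, `u' = g⁻¹ u`;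
`NM X' u' = g⁻¹ NM X u`). -/
def STC_stmt : Prop := ∀ (n N : ℕ) (A H : Subgroup (SLZ (n + 1))) (𝔞 : Submodule ℚ (MQ (n + 1))), 1 ≤ n →
  ZDense H → LA A 𝔞 N → A ≤ H → ¬ Star 𝔞 → n ≤ Module.finrank ℚ 𝔞 →
  ∃ (A' H' : Subgroup (SLZ (n + 1))) (𝔞' : Submodule ℚ (MQ (n + 1))) (X : Fin n → MQ (n + 1))
    (f : Fin (n + 1) → ℚ), (H'.FiniteIndex → H.FiniteIndex) ∧ ZDense H' ∧ Dat A' 𝔞' N X f ∧ f ≠ 0 ∧
    A' ≤ H' ∧ Module.finrank ℚ 𝔞' = n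

/-- **ELA** (short/medium). From `final_coef`, `EXJ`. `Z = vecMulVec e0 φ ∈ 𝔞`, `Z ≠ 0`, `φ e0 = 0` (as `Z e0 = 0`). `exp (k Z) = 1 + k Z ∈ A`: an integral matrix, so `z = tv e0 (k φ)`, `k φ` integral. As `finrank 𝔞 ≥ 2` there is `Y ∈ 𝔞` not in `ℚ Z`, `g ∈ A`, `qg g = exp (l Y)`; `g e0 = e0`, the coefficient is
`φ e0 = 0`. `g ^ i = z ^ j` with `i ≥ 1` gives `exp (i l Y) = exp (j k Z)`, `i l Y = j k Z` (LG, second claim), a contradiction. -/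
def ELA_stmt : Prop := ∀ (n N : ℕ) (A H : Subgroup (SLZ (n + 1))) (𝔞 : Submodule ℚ (MQ (n + 1))), 2 ≤ n →
  ZDense H → LA A 𝔞 N → A ≤ H → (∀ Z ∈ 𝔞, Z *ᵥ e0 n = 0) → 2 ≤ Module.finrank ℚ 𝔞 →
  (∃ Z ∈ 𝔞, Z ≠ 0 ∧ dn Z = 0) → H.FiniteIndex

/-- **FIN** (short/medium). From ZDH, FIL, STC, ELA and the landed `tG0`, `DIM`, `N2`, `STQ EXD`. If `Star 𝔞`: G0. Otherwise STC. If some `0 ≠ Z ∈ 𝔞` has `dn Z = 0`: ELA. Otherwise `dnL` is injective on `𝔞`, `finrank (𝔞.map dnL) = n`, STQ: `ANil`, `Lat (Hb H)`; DIM: `Star (𝔞.map dnL)`.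
`n = 2`: N2, contradiction. `n ≥ 3`: ZDH, G0 for `Hb H`, FIL. -/
def FIN_stmt : Prop := ∀ (n N : ℕ) (A H : Subgroup (SLZ (n + 1))) (𝔞 : Submodule ℚ (MQ (n + 1))), 2 ≤ n →
  ZDense H → LA A 𝔞 N → A ≤ H → n ≤ Module.finrank ℚ 𝔞 → H.FiniteIndex

end Pool.Agent.UH
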