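import Pool.Agent.helper81.UH.Spec

/-!
# Project uh (MP_a2a22c_al): the sharp threshold for an independent sequence of unipotent elements
-/

set_option autoImplicit false

namespace Pool.Agent.UH

open Matrix Pool.Agent.H48SL Pool.Agent.UG

/-- an independent sequence of `n - 1` elements -/
theorem Core_J (hFIN : FIN_stmt) {n : ℕ} (hn : 3 ≤ n) {H : Subgroup (SLZ n)} (hD : ZDense H)
    (a : Fin (n - 1) → SLZ n) (haH : ∀ i, a i ∈ H)
    (hA : ∀ b ∈ Subgroup.closure (Set.range a), IsNilpotent ((b : Matrix (Fin n) (Fin n) ℤ) - 1))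
    (hi : ∀ i, ∀ k : ℕ, 1 ≤ k → a i ^ k ∉ Subgroup.closure {b | ∃ j, j < i ∧ b = a j}) :
    H.FiniteIndex := by
  obtain ⟨𝔞, h2, h3, h4, h5⟩ := Core_sub tKOL tMAL hA
  have h6 := tIND n _ h5 𝔞 h2 h3 h4 (n - 1) a (fun i => Subgroup.subset_closure ⟨i, rfl⟩) hi
  have h7 : Subgroup.closure (Set.range a) ≤ H := by
    rw [Subgroup.closure_le]
    rintro _ ⟨i, rfl⟩
    exact haH i
  obtain ⟨N, hN⟩ := h2
  obtain ⟨m, rfl⟩ : ∃ m, n = m + 1 := ⟨n - 1, by omega⟩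
  exact hFIN m N _ H 𝔞 (by omega) hD ⟨hN, h3, h4⟩ h7 h6

end Pool.Agent.UH
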